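import Pool.Agent.Helper75.SR.Goals1

/-!
# MP_d08e19_gt: packet SR-GSum
-/

namespace Pool.Agent.Helper97.SR

open Pool.Agent.Helper75.SR
open scoped ContDiff Topology
open Real

/-- Fields 0 and 1, generic values: `Z = X + iY`, `z = Z' = x + i y`, `z' = x' + i y'`. -/
theorem alg01 (β τ w : ℝ) (Rm : Fin 3 → Fin 3 → ℝ) (X Y x y x' y' : ℝ) :
    qq β τ w Rm (2 * ((1 + β) * w) * X) (2 * ((1 + β) * w) * x) ![x, 0, 0] ![x', 0, 0]
      ![-2 * τ * X, 0, 0] ![-2 * τ * x, 0, 0]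
    + qq β τ w Rm (2 * ((1 + β) * w) * Y) (2 * ((1 + β) * w) * y) ![y, 0, 0] ![y', 0, 0]
      ![-2 * τ * Y, 0, 0] ![-2 * τ * y, 0, 0]
    = (x' ^ 2 + y' ^ 2) + (τ ^ 2 - τ ^ 2 * Rm 0 0) * (x ^ 2 + y ^ 2)
      + (X * x' + Y * y') * (2 * (2 * ((1 + β) * w) * (2 * ((1 + β) * w) - w) + 2 * τ ^ 2)
          - 4 * ((1 + β) * w) * (β * w))
      + (X ^ 2 + Y ^ 2) * ((2 * ((1 + β) * w) * (2 * ((1 + β) * w) - w) + 2 * τ ^ 2) ^ 2
          - 4 * τ ^ 4 - 8 * w * ((1 + β) * w) * τ ^ 2 - 4 * w ^ 2 * ((1 + β) * w) ^ 2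
          + β * w * (-8 * w * ((1 + β) * w) ^ 2 - 8 * w * τ ^ 2 - 8 * τ ^ 2 * (β * w)
            - 4 * ((1 + β) * w)
              * (2 * ((1 + β) * w) * (2 * ((1 + β) * w) - w) + 2 * τ ^ 2))) := by
  simp only [qq, Fin.sum_univ_three, Matrix.cons_val_zero, Matrix.cons_val_one,
    Matrix.cons_val]
  ring

/-- Fields 2 and 3, generic values. -/
theorem alg23 (β τ w : ℝ) (Rm : Fin 3 → Fin 3 → ℝ) (hs : Rm 1 2 = Rm 2 1)
    (x y x' y' X Y X' Y' : ℝ) :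
    qq β τ w Rm 0 0 ![0, x, y] ![0, x', y'] ![0, X, Y] ![0, X', Y']
    + qq β τ w Rm 0 0 ![0, -y, x] ![0, -y', x'] ![0, -Y, X] ![0, -Y', X']
    = 2 * ((x' + (2 * (1 + β) * w - w) * y - τ * X) ^ 2
        + (y' - (2 * (1 + β) * w - w) * x - τ * Y) ^ 2)
      + 2 * ((X' + τ * x - w * Y) ^ 2 + (Y' + τ * y + w * X) ^ 2)
      - τ ^ 2 * (Rm 1 1 + Rm 2 2) * (x ^ 2 + y ^ 2) - 2 * τ ^ 2 * (X ^ 2 + Y ^ 2)
      - 2 * w ^ 2 * (x ^ 2 + y ^ 2 + X ^ 2 + Y ^ 2)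
      + β * (2 * ((X' + 2 * τ * x - 2 * w * Y) ^ 2 + (Y' + 2 * τ * y + 2 * w * X) ^ 2)
        + w * (-4 * w * (x ^ 2 + y ^ 2 + X ^ 2 + Y ^ 2)
          - 4 * (x * (y' - (2 * (1 + β) * w - w) * x - τ * Y)
              - y * (x' + (2 * (1 + β) * w - w) * y - τ * X))
          - 4 * (X * (Y' + τ * y + w * X) - Y * (X' + τ * x - w * Y)))) := by
  simp only [qq, Fin.sum_univ_three, Matrix.cons_val_zero, Matrix.cons_val_one,
    Matrix.cons_val]
  rw [hs]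
  ring

/-- Rotation by the angle `2 w t` (`a = cos`, `b = sin`). -/
theorem rot23 (β τ w : ℝ) (R : ℝ) (a b X Y x y x' y' : ℝ) (hab : a ^ 2 + b ^ 2 = 1)
    (cr ci dr di GX GY HX HY : ℝ)
    (hcr : cr = a * x + b * y) (hci : ci = a * y - b * x)
    (hdr : dr = a * x' + b * y' + 2 * w * (a * y - b * x))
    (hdi : di = a * y' - b * x' - 2 * w * (a * x + b * y))
    (hGX : GX = a * (-2 * τ * X) + b * (-2 * τ * Y))
    (hGY : GY = a * (-2 * τ * Y) - b * (-2 * τ * X))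
    (hHX : HX = a * (-2 * τ * x) + b * (-2 * τ * y)
      + 2 * w * (a * (-2 * τ * Y) - b * (-2 * τ * X)))
    (hHY : HY = a * (-2 * τ * y) - b * (-2 * τ * x)
      - 2 * w * (a * (-2 * τ * X) + b * (-2 * τ * Y))) :
    2 * ((dr + (2 * (1 + β) * w - w) * ci - τ * GX) ^ 2
        + (di - (2 * (1 + β) * w - w) * cr - τ * GY) ^ 2)
      + 2 * ((HX + τ * cr - w * GY) ^ 2 + (HY + τ * ci + w * GX) ^ 2)
      - τ ^ 2 * R * (cr ^ 2 + ci ^ 2) - 2 * τ ^ 2 * (GX ^ 2 + GY ^ 2)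
      - 2 * w ^ 2 * (cr ^ 2 + ci ^ 2 + GX ^ 2 + GY ^ 2)
      + β * (2 * ((HX + 2 * τ * cr - 2 * w * GY) ^ 2 + (HY + 2 * τ * ci + 2 * w * GX) ^ 2)
        + w * (-4 * w * (cr ^ 2 + ci ^ 2 + GX ^ 2 + GY ^ 2)
          - 4 * (cr * (di - (2 * (1 + β) * w - w) * cr - τ * GY)
              - ci * (dr + (2 * (1 + β) * w - w) * ci - τ * GX))
          - 4 * (GX * (HY + τ * ci + w * GX) - GY * (HX + τ * cr - w * GY))))
    = 2 * ((x' + (2 * (1 + β) * w + w) * y + 2 * τ ^ 2 * X) ^ 2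
        + (y' - (2 * (1 + β) * w + w) * x + 2 * τ ^ 2 * Y) ^ 2)
      + 2 * τ ^ 2 * ((x + 2 * w * Y) ^ 2 + (y - 2 * w * X) ^ 2)
      - τ ^ 2 * R * (x ^ 2 + y ^ 2) - 8 * τ ^ 4 * (X ^ 2 + Y ^ 2)
      - 2 * w ^ 2 * (x ^ 2 + y ^ 2 + 4 * τ ^ 2 * (X ^ 2 + Y ^ 2))
      + β * w * (-4 * w * (x ^ 2 + y ^ 2 + 4 * τ ^ 2 * (X ^ 2 + Y ^ 2))
          - 4 * (x * (y' - (2 * (1 + β) * w + w) * x + 2 * τ ^ 2 * Y)
              - y * (x' + (2 * (1 + β) * w + w) * y + 2 * τ ^ 2 * X))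
          - 4 * (2 * τ ^ 2 * (X * y - Y * x) - 4 * τ ^ 2 * w * (X ^ 2 + Y ^ 2))) := by
  have e1 : (dr + (2 * (1 + β) * w - w) * ci - τ * GX) ^ 2
        + (di - (2 * (1 + β) * w - w) * cr - τ * GY) ^ 2
      = (x' + (2 * (1 + β) * w + w) * y + 2 * τ ^ 2 * X) ^ 2
        + (y' - (2 * (1 + β) * w + w) * x + 2 * τ ^ 2 * Y) ^ 2 := by
    rw [hdr, hdi, hcr, hci, hGX, hGY]
    linear_combination ((x' + (2 * (1 + β) * w + w) * y + 2 * τ ^ 2 * X) ^ 2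
        + (y' - (2 * (1 + β) * w + w) * x + 2 * τ ^ 2 * Y) ^ 2) * hab
  have e2 : (HX + τ * cr - w * GY) ^ 2 + (HY + τ * ci + w * GX) ^ 2
      = τ ^ 2 * ((x + 2 * w * Y) ^ 2 + (y - 2 * w * X) ^ 2) := by
    rw [hHX, hHY, hcr, hci, hGX, hGY]
    linear_combination (τ ^ 2 * ((x + 2 * w * Y) ^ 2 + (y - 2 * w * X) ^ 2)) * hab
  have e3 : cr ^ 2 + ci ^ 2 = x ^ 2 + y ^ 2 := by
    rw [hcr, hci]
    linear_combination (x ^ 2 + y ^ 2) * hab
  have e4 : GX ^ 2 + GY ^ 2 = 4 * τ ^ 2 * (X ^ 2 + Y ^ 2) := by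
    rw [hGX, hGY]
    linear_combination (4 * τ ^ 2 * (X ^ 2 + Y ^ 2)) * hab
  have e5 : HX + 2 * τ * cr - 2 * w * GY = 0 := by
    rw [hHX, hcr, hGY]; ring
  have e6 : HY + 2 * τ * ci + 2 * w * GX = 0 := by
    rw [hHY, hci, hGX]; ring
  have e7 : cr * (di - (2 * (1 + β) * w - w) * cr - τ * GY)
              - ci * (dr + (2 * (1 + β) * w - w) * ci - τ * GX)
      = x * (y' - (2 * (1 + β) * w + w) * x + 2 * τ ^ 2 * Y)
              - y * (x' + (2 * (1 + β) * w + w) * y + 2 * τ ^ 2 * X) := by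
    rw [hdr, hdi, hcr, hci, hGX, hGY]
    linear_combination (x * (y' - (2 * (1 + β) * w + w) * x + 2 * τ ^ 2 * Y)
              - y * (x' + (2 * (1 + β) * w + w) * y + 2 * τ ^ 2 * X)) * hab
  have e8 : GX * (HY + τ * ci + w * GX) - GY * (HX + τ * cr - w * GY)
      = 2 * τ ^ 2 * (X * y - Y * x) - 4 * τ ^ 2 * w * (X ^ 2 + Y ^ 2) := by
    rw [hHX, hHY, hcr, hci, hGX, hGY]
    linear_combination (2 * τ ^ 2 * (X * y - Y * x) - 4 * τ ^ 2 * w * (X ^ 2 + Y ^ 2)) * hab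
  rw [e1, e2, e5, e6, e7, e8, e3]
  have e9 : x ^ 2 + y ^ 2 + GX ^ 2 + GY ^ 2 = x ^ 2 + y ^ 2 + 4 * τ ^ 2 * (X ^ 2 + Y ^ 2) := by
    linear_combination e4
  rw [e9, e4]
  ring

/-- Sum of the four fields in terms of `H`, `H'`, `H''`. -/
theorem algAll (β τ w : ℝ) (Rm : Fin 3 → Fin 3 → ℝ) (hs : Rm 1 2 = Rm 2 1)
    (htr : Rm 0 0 + Rm 1 1 + Rm 2 2 = 3)
    (v h0 h1 h2 C S a b : ℝ) (hv : v = (1 + β) * w)
    (hCS : C ^ 2 + S ^ 2 = 1) (hab : a ^ 2 + b ^ 2 = 1)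
    (X Y x y x' y' cr ci dr di GX GY HX HY : ℝ)
    (hX : X = h0 * C) (hY : Y = h0 * S)
    (hx : x = h1 * C - 2 * v * h0 * S) (hy : y = h1 * S + 2 * v * h0 * C)
    (hx' : x' = h2 * C - 4 * v * h1 * S - 4 * v ^ 2 * h0 * C)
    (hy' : y' = h2 * S + 4 * v * h1 * C - 4 * v ^ 2 * h0 * S)
    (hcr : cr = a * x + b * y) (hci : ci = a * y - b * x)
    (hdr : dr = a * x' + b * y' + 2 * w * (a * y - b * x))
    (hdi : di = a * y' - b * x' - 2 * w * (a * x + b * y))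
    (hGX : GX = a * (-2 * τ * X) + b * (-2 * τ * Y))
    (hGY : GY = a * (-2 * τ * Y) - b * (-2 * τ * X))
    (hHX : HX = a * (-2 * τ * x) + b * (-2 * τ * y)
      + 2 * w * (a * (-2 * τ * Y) - b * (-2 * τ * X)))
    (hHY : HY = a * (-2 * τ * y) - b * (-2 * τ * x)
      - 2 * w * (a * (-2 * τ * X) + b * (-2 * τ * Y))) :
    (qq β τ w Rm (2 * ((1 + β) * w) * X) (2 * ((1 + β) * w) * x) ![x, 0, 0] ![x', 0, 0]
      ![-2 * τ * X, 0, 0] ![-2 * τ * x, 0, 0]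
    + qq β τ w Rm (2 * ((1 + β) * w) * Y) (2 * ((1 + β) * w) * y) ![y, 0, 0] ![y', 0, 0]
      ![-2 * τ * Y, 0, 0] ![-2 * τ * y, 0, 0])
    + (qq β τ w Rm 0 0 ![0, cr, ci] ![0, dr, di] ![0, GX, GY] ![0, HX, HY]
      + qq β τ w Rm 0 0 ![0, -ci, cr] ![0, -di, dr] ![0, -GY, GX] ![0, -HY, HX])
    = 3 * h2 ^ 2 + 16 * v ^ 2 * h1 ^ 2 - 16 * τ ^ 2 * v ^ 2 * h0 ^ 2
      + (4 * v ^ 2 + 12 * τ ^ 2) * (h0 * h2) := by
  rw [alg01, alg23 β τ w Rm hs,
    rot23 β τ w (Rm 1 1 + Rm 2 2) a b X Y x y x' y' hab cr ci dr di GX GY HX HY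
      hcr hci hdr hdi hGX hGY hHX hHY]
  have q1 : X ^ 2 + Y ^ 2 = h0 ^ 2 := by
    rw [hX, hY]; linear_combination (h0 ^ 2) * hCS
  have q2 : x ^ 2 + y ^ 2 = h1 ^ 2 + 4 * v ^ 2 * h0 ^ 2 := by
    rw [hx, hy]; linear_combination (h1 ^ 2 + 4 * v ^ 2 * h0 ^ 2) * hCS
  have q3 : x' ^ 2 + y' ^ 2 = (h2 - 4 * v ^ 2 * h0) ^ 2 + 16 * v ^ 2 * h1 ^ 2 := by
    rw [hx', hy']
    linear_combination ((h2 - 4 * v ^ 2 * h0) ^ 2 + 16 * v ^ 2 * h1 ^ 2) * hCS
  have q4 : X * x' + Y * y' = h0 * (h2 - 4 * v ^ 2 * h0) := by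
    rw [hX, hY, hx', hy']
    linear_combination (h0 * (h2 - 4 * v ^ 2 * h0)) * hCS
  have hv2 : (2 * (1 + β) * w + w) = 2 * v + w := by rw [hv]; ring
  have q5 : (x' + (2 * (1 + β) * w + w) * y + 2 * τ ^ 2 * X) ^ 2
        + (y' - (2 * (1 + β) * w + w) * x + 2 * τ ^ 2 * Y) ^ 2
      = (h2 + (2 * v * w + 2 * τ ^ 2) * h0) ^ 2 + (2 * v - w) ^ 2 * h1 ^ 2 := by
    rw [hv2, hX, hY, hx', hy', hx, hy]
    linear_combination ((h2 + (2 * v * w + 2 * τ ^ 2) * h0) ^ 2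
      + (2 * v - w) ^ 2 * h1 ^ 2) * hCS
  have q6 : (x + 2 * w * Y) ^ 2 + (y - 2 * w * X) ^ 2
      = h1 ^ 2 + 4 * (v - w) ^ 2 * h0 ^ 2 := by
    rw [hX, hY, hx, hy]
    linear_combination (h1 ^ 2 + 4 * (v - w) ^ 2 * h0 ^ 2) * hCS
  have q7 : x * (y' - (2 * (1 + β) * w + w) * x + 2 * τ ^ 2 * Y)
              - y * (x' + (2 * (1 + β) * w + w) * y + 2 * τ ^ 2 * X)
      = (2 * v - w) * h1 ^ 2 - 2 * v * h0 * (h2 + (2 * v * w + 2 * τ ^ 2) * h0) := by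
    rw [hv2, hX, hY, hx', hy', hx, hy]
    linear_combination ((2 * v - w) * h1 ^ 2
      - 2 * v * h0 * (h2 + (2 * v * w + 2 * τ ^ 2) * h0)) * hCS
  have q8 : X * y - Y * x = 2 * v * h0 ^ 2 := by
    rw [hX, hY, hx, hy]
    linear_combination (2 * v * h0 ^ 2) * hCS
  rw [q5, q6, q7, q8, q3, q4, q1, q2]
  have hR : Rm 1 1 + Rm 2 2 = 3 - Rm 0 0 := by linarith
  rw [hR, hv]
  ring

theorem hasDerivAt_cosk (k t : ℝ) :
    HasDerivAt (fun s => cos (k * s)) (-(k * sin (k * t))) t := by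
  have h := ((hasDerivAt_id t).const_mul k).cos
  simp only [id, mul_one] at h
  convert h using 1
  ring

theorem hasDerivAt_sink (k t : ℝ) :
    HasDerivAt (fun s => sin (k * s)) (k * cos (k * t)) t := by
  have h := ((hasDerivAt_id t).const_mul k).sin
  simp only [id, mul_one] at h
  convert h using 1
  ring

/-- first derivative of `ZR` -/
noncomputable def zr1 (k v t : ℝ) : ℝ :=
  k * sin (k * t) * cos (2 * v * t) - 2 * v * (1 - cos (k * t)) * sin (2 * v * t)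

/-- first derivative of `ZI` -/
noncomputable def zi1 (k v t : ℝ) : ℝ :=
  k * sin (k * t) * sin (2 * v * t) + 2 * v * (1 - cos (k * t)) * cos (2 * v * t)

/-- second derivative of `ZR` -/
noncomputable def zr2 (k v t : ℝ) : ℝ :=
  k ^ 2 * cos (k * t) * cos (2 * v * t) - 4 * v * (k * sin (k * t)) * sin (2 * v * t)
    - 4 * v ^ 2 * (1 - cos (k * t)) * cos (2 * v * t)

/-- second derivative of `ZI` -/
noncomputable def zi2 (k v t : ℝ) : ℝ :=
  k ^ 2 * cos (k * t) * sin (2 * v * t) + 4 * v * (k * sin (k * t)) * cos (2 * v * t)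
    - 4 * v ^ 2 * (1 - cos (k * t)) * sin (2 * v * t)

theorem hasDerivAt_ZR (k v t : ℝ) : HasDerivAt (ZR k v) (zr1 k v t) t := by
  have h := ((hasDerivAt_cosk k t).const_sub 1).mul (hasDerivAt_cosk (2 * v) t)
  refine HasDerivAt.congr_deriv h ?_
  simp only [zr1]
  ring

theorem hasDerivAt_ZI (k v t : ℝ) : HasDerivAt (ZI k v) (zi1 k v t) t := by
  have h := ((hasDerivAt_cosk k t).const_sub 1).mul (hasDerivAt_sink (2 * v) t)
  refine HasDerivAt.congr_deriv h ?_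
  simp only [zi1]
  ring

theorem deriv_ZR (k v : ℝ) : deriv (ZR k v) = zr1 k v := by
  funext t; exact (hasDerivAt_ZR k v t).deriv

theorem deriv_ZI (k v : ℝ) : deriv (ZI k v) = zi1 k v := by
  funext t; exact (hasDerivAt_ZI k v t).deriv

theorem hasDerivAt_zr1 (k v t : ℝ) : HasDerivAt (zr1 k v) (zr2 k v t) t := by
  have h := (((hasDerivAt_sink k t).const_mul k).mul (hasDerivAt_cosk (2 * v) t)).sub
    ((((hasDerivAt_cosk k t).const_sub 1).const_mul (2 * v)).mul (hasDerivAt_sink (2 * v) t))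
  refine HasDerivAt.congr_deriv h ?_
  simp only [zr2]
  ring

theorem hasDerivAt_zi1 (k v t : ℝ) : HasDerivAt (zi1 k v) (zi2 k v t) t := by
  have h := (((hasDerivAt_sink k t).const_mul k).mul (hasDerivAt_sink (2 * v) t)).add
    ((((hasDerivAt_cosk k t).const_sub 1).const_mul (2 * v)).mul (hasDerivAt_cosk (2 * v) t))
  refine HasDerivAt.congr_deriv h ?_
  simp only [zi2]
  ring

/-- derivative of a rotated pair, real part -/
theorem hasDerivAt_rotR (w t : ℝ) (x y : ℝ → ℝ) (x' y' : ℝ) (hx : HasDerivAt x x' t)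
    (hy : HasDerivAt y y' t) :
    HasDerivAt (fun s => cos (2 * w * s) * x s + sin (2 * w * s) * y s)
      (cos (2 * w * t) * x' + sin (2 * w * t) * y'
        + 2 * w * (cos (2 * w * t) * y t - sin (2 * w * t) * x t)) t := by
  have h := ((hasDerivAt_cosk (2 * w) t).mul hx).add ((hasDerivAt_sink (2 * w) t).mul hy)
  refine HasDerivAt.congr_deriv h ?_
  ring

/-- derivative of a rotated pair, imaginary part -/
theorem hasDerivAt_rotI (w t : ℝ) (x y : ℝ → ℝ) (x' y' : ℝ) (hx : HasDerivAt x x' t)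
    (hy : HasDerivAt y y' t) :
    HasDerivAt (fun s => cos (2 * w * s) * y s - sin (2 * w * s) * x s)
      (cos (2 * w * t) * y' - sin (2 * w * t) * x'
        - 2 * w * (cos (2 * w * t) * x t + sin (2 * w * t) * y t)) t := by
  have h := ((hasDerivAt_cosk (2 * w) t).mul hy).sub ((hasDerivAt_sink (2 * w) t).mul hx)
  refine HasDerivAt.congr_deriv h ?_
  ring

section fields

variable (β τ w k : ℝ)

theorem fldF_00 : fldF β k w 0 0 = zr1 k ((1 + β) * w) := by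
  funext t; simp [fldF, deriv_ZR]
theorem fldF_01 : fldF β k w 0 1 = fun _ => 0 := by
  funext t; simp [fldF]
theorem fldF_02 : fldF β k w 0 2 = fun _ => 0 := by
  funext t; simp [fldF]
theorem fldF_10 : fldF β k w 1 0 = zi1 k ((1 + β) * w) := by
  funext t; simp [fldF, deriv_ZI]
theorem fldF_11 : fldF β k w 1 1 = fun _ => 0 := by
  funext t; simp [fldF]
theorem fldF_12 : fldF β k w 1 2 = fun _ => 0 := by
  funext t; simp [fldF]
theorem fldF_20 : fldF β k w 2 0 = fun _ => 0 := by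
  funext t; simp [fldF]
theorem fldF_21 : fldF β k w 2 1 = fun t =>
    cos (2 * w * t) * zr1 k ((1 + β) * w) t + sin (2 * w * t) * zi1 k ((1 + β) * w) t := by
  funext t; simp [fldF, deriv_ZR, deriv_ZI]
theorem fldF_22 : fldF β k w 2 2 = fun t =>
    cos (2 * w * t) * zi1 k ((1 + β) * w) t - sin (2 * w * t) * zr1 k ((1 + β) * w) t := by
  funext t; simp [fldF, deriv_ZR, deriv_ZI]
theorem fldF_30 : fldF β k w 3 0 = fun _ => 0 := by
  funext t; simp [fldF]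
theorem fldF_31 : fldF β k w 3 1 = fun t =>
    -(cos (2 * w * t) * zi1 k ((1 + β) * w) t - sin (2 * w * t) * zr1 k ((1 + β) * w) t) := by
  funext t; simp [fldF, deriv_ZR, deriv_ZI]
theorem fldF_32 : fldF β k w 3 2 = fun t =>
    cos (2 * w * t) * zr1 k ((1 + β) * w) t + sin (2 * w * t) * zi1 k ((1 + β) * w) t := by
  funext t; simp [fldF, deriv_ZR, deriv_ZI]

theorem fldG_00 : fldG β k τ w 0 0 = fun t => -2 * τ * ZR k ((1 + β) * w) t := by
  funext t; simp [fldG]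
theorem fldG_01 : fldG β k τ w 0 1 = fun _ => 0 := by
  funext t; simp [fldG]
theorem fldG_02 : fldG β k τ w 0 2 = fun _ => 0 := by
  funext t; simp [fldG]
theorem fldG_10 : fldG β k τ w 1 0 = fun t => -2 * τ * ZI k ((1 + β) * w) t := by
  funext t; simp [fldG]
theorem fldG_11 : fldG β k τ w 1 1 = fun _ => 0 := by
  funext t; simp [fldG]
theorem fldG_12 : fldG β k τ w 1 2 = fun _ => 0 := by
  funext t; simp [fldG]
theorem fldG_20 : fldG β k τ w 2 0 = fun _ => 0 := by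
  funext t; simp [fldG]
theorem fldG_21 : fldG β k τ w 2 1 = fun t =>
    cos (2 * w * t) * (-2 * τ * ZR k ((1 + β) * w) t)
      + sin (2 * w * t) * (-2 * τ * ZI k ((1 + β) * w) t) := by
  funext t; simp [fldG]
theorem fldG_22 : fldG β k τ w 2 2 = fun t =>
    cos (2 * w * t) * (-2 * τ * ZI k ((1 + β) * w) t)
      - sin (2 * w * t) * (-2 * τ * ZR k ((1 + β) * w) t) := by
  funext t; simp [fldG]
theorem fldG_30 : fldG β k τ w 3 0 = fun _ => 0 := by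
  funext t; simp [fldG]
theorem fldG_31 : fldG β k τ w 3 1 = fun t =>
    -(cos (2 * w * t) * (-2 * τ * ZI k ((1 + β) * w) t)
      - sin (2 * w * t) * (-2 * τ * ZR k ((1 + β) * w) t)) := by
  funext t; simp [fldG]
theorem fldG_32 : fldG β k τ w 3 2 = fun t =>
    cos (2 * w * t) * (-2 * τ * ZR k ((1 + β) * w) t)
      + sin (2 * w * t) * (-2 * τ * ZI k ((1 + β) * w) t) := by
  funext t; simp [fldG]

end fields

theorem vec3_eq {α : Type} (f : Fin 3 → α) (a b c : α) (h0 : f 0 = a) (h1 : f 1 = b)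
    (h2 : f 2 = c) : f = ![a, b, c] := by
  funext i
  fin_cases i
  · exact h0
  · exact h1
  · exact h2

/-- The pointwise value of the sum. -/
theorem pointwise (β τ w k t : ℝ) (Rm : Fin 3 → Fin 3 → ℝ) (hs : ∀ a b, Rm a b = Rm b a)
    (htr : ∑ a, Rm a a = 3) :
    ∑ i : Fin 4, qq β τ w Rm
        (fldP β k w i t) (deriv (fldP β k w i) t)
        (fun a => fldF β k w i a t) (fun a => deriv (fldF β k w i a) t)
        (fun a => fldG β k τ w i a t)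
        (fun a => deriv (fldG β k τ w i a) t)
    = 3 * (k ^ 2 * cos (k * t)) ^ 2 + 16 * ((1 + β) * w) ^ 2 * (k * sin (k * t)) ^ 2
      - 16 * τ ^ 2 * ((1 + β) * w) ^ 2 * (1 - cos (k * t)) ^ 2
      + (4 * ((1 + β) * w) ^ 2 + 12 * τ ^ 2) * ((1 - cos (k * t)) * (k ^ 2 * cos (k * t))) := by
  set v : ℝ := (1 + β) * w with hv
  have dR := hasDerivAt_ZR k v t
  have dI := hasDerivAt_ZI k v t
  have ddR := hasDerivAt_zr1 k v t
  have ddI := hasDerivAt_zi1 k v t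
  have gR := (hasDerivAt_ZR k v t).const_mul (-2 * τ)
  have gI := (hasDerivAt_ZI k v t).const_mul (-2 * τ)
  have hP0 : fldP β k w 0 = fun s => 2 * v * ZR k v s := by
    funext s; simp [fldP, hv]
  have hP1 : fldP β k w 1 = fun s => 2 * v * ZI k v s := by
    funext s; simp [fldP, hv]
  have hP2 : fldP β k w 2 = fun _ => 0 := by
    funext s; simp [fldP]
  have hP3 : fldP β k w 3 = fun _ => 0 := by
    funext s; simp [fldP]
  have dP0 : deriv (fldP β k w 0) t = 2 * v * zr1 k v t := by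
    rw [hP0]; exact (dR.const_mul (2 * v)).deriv
  have dP1 : deriv (fldP β k w 1) t = 2 * v * zi1 k v t := by
    rw [hP1]; exact (dI.const_mul (2 * v)).deriv
  have dP2 : deriv (fldP β k w 2) t = 0 := by rw [hP2]; simp
  have dP3 : deriv (fldP β k w 3) t = 0 := by rw [hP3]; simp
  have F0 : (fun a => fldF β k w 0 a t) = ![zr1 k v t, 0, 0] :=
    vec3_eq _ _ _ _ (by rw [fldF_00]) (by rw [fldF_01]) (by rw [fldF_02])
  have F1 : (fun a => fldF β k w 1 a t) = ![zi1 k v t, 0, 0] :=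
    vec3_eq _ _ _ _ (by rw [fldF_10]) (by rw [fldF_11]) (by rw [fldF_12])
  have F2 : (fun a => fldF β k w 2 a t) = ![0,
      cos (2 * w * t) * zr1 k v t + sin (2 * w * t) * zi1 k v t,
      cos (2 * w * t) * zi1 k v t - sin (2 * w * t) * zr1 k v t] :=
    vec3_eq _ _ _ _ (by rw [fldF_20]) (by rw [fldF_21]) (by rw [fldF_22])
  have F3 : (fun a => fldF β k w 3 a t) = ![0,
      -(cos (2 * w * t) * zi1 k v t - sin (2 * w * t) * zr1 k v t),
      cos (2 * w * t) * zr1 k v t + sin (2 * w * t) * zi1 k v t] :=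
    vec3_eq _ _ _ _ (by rw [fldF_30]) (by rw [fldF_31]) (by rw [fldF_32])
  have dF0 : (fun a => deriv (fldF β k w 0 a) t) = ![zr2 k v t, 0, 0] :=
    vec3_eq _ _ _ _ (by rw [fldF_00]; exact ddR.deriv) (by rw [fldF_01]; simp)
      (by rw [fldF_02]; simp)
  have dF1 : (fun a => deriv (fldF β k w 1 a) t) = ![zi2 k v t, 0, 0] :=
    vec3_eq _ _ _ _ (by rw [fldF_10]; exact ddI.deriv) (by rw [fldF_11]; simp)
      (by rw [fldF_12]; simp)
  have dF2 : (fun a => deriv (fldF β k w 2 a) t) = ![0,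
      cos (2 * w * t) * zr2 k v t + sin (2 * w * t) * zi2 k v t
        + 2 * w * (cos (2 * w * t) * zi1 k v t - sin (2 * w * t) * zr1 k v t),
      cos (2 * w * t) * zi2 k v t - sin (2 * w * t) * zr2 k v t
        - 2 * w * (cos (2 * w * t) * zr1 k v t + sin (2 * w * t) * zi1 k v t)] :=
    vec3_eq _ _ _ _ (by rw [fldF_20]; simp)
      (by rw [fldF_21]; exact (hasDerivAt_rotR w t _ _ _ _ ddR ddI).deriv)
      (by rw [fldF_22]; exact (hasDerivAt_rotI w t _ _ _ _ ddR ddI).deriv)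
  have dF3 : (fun a => deriv (fldF β k w 3 a) t) = ![0,
      -(cos (2 * w * t) * zi2 k v t - sin (2 * w * t) * zr2 k v t
        - 2 * w * (cos (2 * w * t) * zr1 k v t + sin (2 * w * t) * zi1 k v t)),
      cos (2 * w * t) * zr2 k v t + sin (2 * w * t) * zi2 k v t
        + 2 * w * (cos (2 * w * t) * zi1 k v t - sin (2 * w * t) * zr1 k v t)] :=
    vec3_eq _ _ _ _ (by rw [fldF_30]; simp)
      (by rw [fldF_31]; exact (hasDerivAt_rotI w t _ _ _ _ ddR ddI).neg.deriv)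
      (by rw [fldF_32]; exact (hasDerivAt_rotR w t _ _ _ _ ddR ddI).deriv)
  have G0 : (fun a => fldG β k τ w 0 a t) = ![-2 * τ * ZR k v t, 0, 0] :=
    vec3_eq _ _ _ _ (by rw [fldG_00]) (by rw [fldG_01]) (by rw [fldG_02])
  have G1 : (fun a => fldG β k τ w 1 a t) = ![-2 * τ * ZI k v t, 0, 0] :=
    vec3_eq _ _ _ _ (by rw [fldG_10]) (by rw [fldG_11]) (by rw [fldG_12])
  have G2 : (fun a => fldG β k τ w 2 a t) = ![0,
      cos (2 * w * t) * (-2 * τ * ZR k v t) + sin (2 * w * t) * (-2 * τ * ZI k v t),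
      cos (2 * w * t) * (-2 * τ * ZI k v t) - sin (2 * w * t) * (-2 * τ * ZR k v t)] :=
    vec3_eq _ _ _ _ (by rw [fldG_20]) (by rw [fldG_21]) (by rw [fldG_22])
  have G3 : (fun a => fldG β k τ w 3 a t) = ![0,
      -(cos (2 * w * t) * (-2 * τ * ZI k v t) - sin (2 * w * t) * (-2 * τ * ZR k v t)),
      cos (2 * w * t) * (-2 * τ * ZR k v t) + sin (2 * w * t) * (-2 * τ * ZI k v t)] :=
    vec3_eq _ _ _ _ (by rw [fldG_30]) (by rw [fldG_31]) (by rw [fldG_32])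
  have dG0 : (fun a => deriv (fldG β k τ w 0 a) t) = ![-2 * τ * zr1 k v t, 0, 0] :=
    vec3_eq _ _ _ _ (by rw [fldG_00]; exact gR.deriv) (by rw [fldG_01]; simp)
      (by rw [fldG_02]; simp)
  have dG1 : (fun a => deriv (fldG β k τ w 1 a) t) = ![-2 * τ * zi1 k v t, 0, 0] :=
    vec3_eq _ _ _ _ (by rw [fldG_10]; exact gI.deriv) (by rw [fldG_11]; simp)
      (by rw [fldG_12]; simp)
  have dG2 : (fun a => deriv (fldG β k τ w 2 a) t) = ![0,
      cos (2 * w * t) * (-2 * τ * zr1 k v t) + sin (2 * w * t) * (-2 * τ * zi1 k v t)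
        + 2 * w * (cos (2 * w * t) * (-2 * τ * ZI k v t)
          - sin (2 * w * t) * (-2 * τ * ZR k v t)),
      cos (2 * w * t) * (-2 * τ * zi1 k v t) - sin (2 * w * t) * (-2 * τ * zr1 k v t)
        - 2 * w * (cos (2 * w * t) * (-2 * τ * ZR k v t)
          + sin (2 * w * t) * (-2 * τ * ZI k v t))] :=
    vec3_eq _ _ _ _ (by rw [fldG_20]; simp)
      (by rw [fldG_21]; exact (hasDerivAt_rotR w t _ _ _ _ gR gI).deriv)
      (by rw [fldG_22]; exact (hasDerivAt_rotI w t _ _ _ _ gR gI).deriv)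
  have dG3 : (fun a => deriv (fldG β k τ w 3 a) t) = ![0,
      -(cos (2 * w * t) * (-2 * τ * zi1 k v t) - sin (2 * w * t) * (-2 * τ * zr1 k v t)
        - 2 * w * (cos (2 * w * t) * (-2 * τ * ZR k v t)
          + sin (2 * w * t) * (-2 * τ * ZI k v t))),
      cos (2 * w * t) * (-2 * τ * zr1 k v t) + sin (2 * w * t) * (-2 * τ * zi1 k v t)
        + 2 * w * (cos (2 * w * t) * (-2 * τ * ZI k v t)
          - sin (2 * w * t) * (-2 * τ * ZR k v t))] :=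
    vec3_eq _ _ _ _ (by rw [fldG_30]; simp)
      (by rw [fldG_31]; exact (hasDerivAt_rotI w t _ _ _ _ gR gI).neg.deriv)
      (by rw [fldG_32]; exact (hasDerivAt_rotR w t _ _ _ _ gR gI).deriv)
  rw [Fin.sum_univ_four, dP0, dP1, dP2, dP3, F0, F1, F2, F3, dF0, dF1, dF2, dF3,
    G0, G1, G2, G3, dG0, dG1, dG2, dG3, hP0, hP1, hP2, hP3]
  have hCS : cos (2 * v * t) ^ 2 + sin (2 * v * t) ^ 2 = 1 := cos_sq_add_sin_sq _
  have hab : cos (2 * w * t) ^ 2 + sin (2 * w * t) ^ 2 = 1 := cos_sq_add_sin_sq _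
  rw [Fin.sum_univ_three] at htr
  have key := algAll β τ w Rm (hs 1 2) htr v (1 - cos (k * t)) (k * sin (k * t))
    (k ^ 2 * cos (k * t)) (cos (2 * v * t)) (sin (2 * v * t)) (cos (2 * w * t))
    (sin (2 * w * t)) hv hCS hab (ZR k v t) (ZI k v t) (zr1 k v t) (zi1 k v t) (zr2 k v t)
    (zi2 k v t) _ _ _ _ _ _ _ _ rfl rfl rfl rfl rfl rfl rfl rfl rfl rfl rfl rfl rfl rfl
  rw [← hv] at key
  rw [← key]
  ring

theorem gSum : GSum := by
  intro β τ w L hL Φ hΦ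
  set k : ℝ := 2 * π / L with hk
  have hk0 : k ≠ 0 := by
    rw [hk]; positivity
  have hkL : k * L = 2 * π := by
    rw [hk]; field_simp
  set v : ℝ := (1 + β) * w with hv
  have hΦ' : Φ = fun t => 3 * (k ^ 2 * cos (k * t)) ^ 2 + 16 * v ^ 2 * (k * sin (k * t)) ^ 2
      - 16 * τ ^ 2 * v ^ 2 * (1 - cos (k * t)) ^ 2
      + (4 * v ^ 2 + 12 * τ ^ 2) * ((1 - cos (k * t)) * (k ^ 2 * cos (k * t))) := by
    funext t
    obtain ⟨Rm, hs, htr, h⟩ := hΦ t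
    rw [h]
    exact pointwise β τ w k t Rm hs htr
  have hcont : Continuous Φ := by
    rw [hΦ']
    fun_prop
  refine ⟨hcont, ?_⟩
  have hder : ∀ t ∈ Set.uIcc (0 : ℝ) L, HasDerivAt (fun s : ℝ =>
      (16 * v ^ 2 * k ^ 2 - 16 * τ ^ 2 * v ^ 2
        + (3 * k ^ 4 - 16 * v ^ 2 * k ^ 2 - 16 * τ ^ 2 * v ^ 2
          - (4 * v ^ 2 + 12 * τ ^ 2) * k ^ 2) / 2) * s
      + (32 * τ ^ 2 * v ^ 2 + (4 * v ^ 2 + 12 * τ ^ 2) * k ^ 2) / k * sin (k * s)
      + (3 * k ^ 4 - 16 * v ^ 2 * k ^ 2 - 16 * τ ^ 2 * v ^ 2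
          - (4 * v ^ 2 + 12 * τ ^ 2) * k ^ 2) / (4 * k) * sin (2 * k * s)) (Φ t) t := by
    intro t _
    have h := (((hasDerivAt_id t).const_mul (16 * v ^ 2 * k ^ 2 - 16 * τ ^ 2 * v ^ 2
        + (3 * k ^ 4 - 16 * v ^ 2 * k ^ 2 - 16 * τ ^ 2 * v ^ 2
          - (4 * v ^ 2 + 12 * τ ^ 2) * k ^ 2) / 2)).add
      ((hasDerivAt_sink k t).const_mul
        ((32 * τ ^ 2 * v ^ 2 + (4 * v ^ 2 + 12 * τ ^ 2) * k ^ 2) / k))).add
      ((hasDerivAt_sink (2 * k) t).const_mul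
        ((3 * k ^ 4 - 16 * v ^ 2 * k ^ 2 - 16 * τ ^ 2 * v ^ 2
          - (4 * v ^ 2 + 12 * τ ^ 2) * k ^ 2) / (4 * k)))
    refine HasDerivAt.congr_deriv h ?_
    rw [hΦ']
    have e1 : cos (2 * k * t) = 2 * cos (k * t) ^ 2 - 1 := by
      rw [mul_assoc, cos_two_mul]
    have e2 : sin (k * t) ^ 2 = 1 - cos (k * t) ^ 2 := by
      rw [sin_sq]
    rw [e1]
    simp only [mul_one]
    rw [mul_pow k (sin (k * t)) 2, e2]
    field_simp
    ring
  rw [intervalIntegral.integral_eq_sub_of_hasDerivAt hder (hcont.intervalIntegrable 0 L)]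
  have s1 : sin (k * L) = 0 := by rw [hkL, sin_two_pi]
  have s2 : sin (2 * k * L) = 0 := by
    rw [mul_assoc, hkL]
    have : (2 : ℝ) * (2 * π) = (4 : ℕ) * π := by push_cast; ring
    rw [this, sin_nat_mul_pi]
  simp only [s1, s2, mul_zero, sin_zero, add_zero, sub_zero]
  ring

end Pool.Agent.Helper97.SR
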